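import Pool.Agent.H.MP_5edfab_co.Defs

set_option autoImplicit false

namespace Pool.Agent.H.MP_5edfab_co

open Finset

theorem ch3 (c : ℕ) : (max ((c : ℝ) - 2) 0) ^ 3 ≤ 6 * (c.choose 3 : ℝ) := by
  have h := Nat.pow_sub_le_descFactorial c 3
  rw [Nat.descFactorial_eq_factorial_mul_choose] at h
  have h' : (((c + 1 - 3 : ℕ) : ℝ)) ^ 3 ≤ 6 * (c.choose 3 : ℝ) := by exact_mod_cast h
  refine le_trans (le_of_eq ?_) h'
  congr 1
  rcases le_total c 2 with h2 | h2
  · rw [show c + 1 - 3 = 0 by omega, max_eq_right]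
    · simp
    · have : (c : ℝ) ≤ 2 := by exact_mod_cast h2
      linarith
  · obtain ⟨d, rfl⟩ := Nat.exists_eq_add_of_le h2
    rw [show 2 + d + 1 - 3 = d by omega, max_eq_left]
    · push_cast; ring
    · push_cast; have : (0 : ℝ) ≤ d := by positivity
      linarith

theorem ch3' (c : ℕ) : 6 * (c.choose 3 : ℝ) ≤ (c : ℝ) ^ 3 := by
  have h := Nat.descFactorial_le_pow c 3
  rw [Nat.descFactorial_eq_factorial_mul_choose] at h
  exact_mod_cast h

theorem cnt (n k : ℕ) (A : Finset ℤ) (hA : A ⊆ Icc 1 (n : ℤ)) (x : ℤ) (hx : x ∈ Ico (0 : ℤ) k) :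
    ((Ioc (-(k : ℤ)) n).filter (fun y => x + y ∈ A)).card = A.card := by
  refine card_bij (fun y _ => x + y) (fun y hy => (mem_filter.1 hy).2)
    (fun y _ y' _ h => by simpa using h) (fun a ha => ⟨a - x, ?_, by simp⟩)
  have := mem_Icc.1 (hA ha)
  have := mem_Ico.1 hx
  refine mem_filter.2 ⟨mem_Ioc.2 ⟨by omega, by omega⟩, by simpa using ha⟩

theorem upper_core (n k : ℕ) (A : Finset ℤ) (hA : A ⊆ Icc 1 (n : ℤ)) (hC : IsC33 A)
    (hk : 0 < k) : ∃ d : ℕ, k * A.card ≤ (n + k) * d ∧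
      (max ((d : ℝ) * (A.card - 1) - 2 * (n + k)) 0) ^ 3 ≤ ((n : ℝ) + k) ^ 2 * d ^ 3 := by
  set Y := Ioc (-(k : ℤ)) n with hY
  set N : ℤ → Finset ℤ := fun y => (Ico (0 : ℤ) k).filter (fun x => x + y ∈ A) with hN
  have cY : Y.card = n + k := by rw [hY, Int.card_Ioc]; omega
  have s1 : ∑ y ∈ Y, (N y).card = k * A.card := by
    have := sum_card_bipartiteAbove_eq_sum_card_bipartiteBelow (s := Y) (t := Ico (0 : ℤ) k)
      (fun y x => x + y ∈ A)
    simp only [bipartiteAbove, bipartiteBelow] at this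
    rw [this, sum_congr rfl fun x hx => cnt n k A hA x hx]
    simp
  obtain ⟨y, hy, hmax⟩ := exists_max_image Y (fun y => (N y).card)
    (card_pos.1 (by omega))
  refine ⟨(N y).card, ?_, ?_⟩
  · rw [← s1, ← cY]
    exact sum_le_card_nsmul _ _ _ hmax
  have s2 : ∑ z ∈ Y.erase y, ((N y).filter (fun x => x + z ∈ A)).card + (N y).card =
      (N y).card * A.card := by
    have := sum_card_bipartiteAbove_eq_sum_card_bipartiteBelow (s := Y) (t := N y)
      (fun z x => x + z ∈ A)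
    simp only [bipartiteAbove, bipartiteBelow] at this
    rw [sum_congr rfl fun x hx => cnt n k A hA x (mem_filter.1 hx).1, sum_const, smul_eq_mul,
      ← sum_erase_add _ _ hy] at this
    rw [← this, filter_true_of_mem fun x hx => (mem_filter.1 hx).2]
  have s3 : ∑ z ∈ Y.erase y, ((N y).filter (fun x => x + z ∈ A)).card.choose 3 ≤
      (N y).card.choose 3 := by
    simp_rw [← card_powersetCard]
    rw [← card_biUnion]
    · refine card_le_card fun T hT => ?_
      obtain ⟨z, -, hz⟩ := mem_biUnion.1 hT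
      exact powersetCard_mono (filter_subset _ _) hz
    · intro z hz z' hz' hne
      refine disjoint_left.2 fun T h1 h2 => ?_
      obtain ⟨a1, a2⟩ := mem_powersetCard.1 h1
      obtain ⟨a3, -⟩ := mem_powersetCard.1 h2
      have e1 := (mem_erase.1 hz).1
      have e2 := (mem_erase.1 hz').1
      obtain ⟨w, hw, x, hx, hh⟩ := hC T {y, z, z'} a2
        (card_eq_three.2 ⟨y, z, z', e1.symm, e2.symm, hne, rfl⟩)
      simp only [mem_insert, mem_singleton] at hw
      rcases hw with rfl | rfl | rfl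
      · exact hh (mem_filter.1 (mem_filter.1 (a1 hx)).1).2
      · exact hh (mem_filter.1 (a1 hx)).2
      · exact hh (mem_filter.1 (a3 hx)).2
  set c : ℤ → ℕ := fun z => ((N y).filter (fun x => x + z ∈ A)).card with hc
  have cE : ((Y.erase y).card : ℝ) ≤ n + k := by
    have := card_erase_le (s := Y) (a := y)
    rw [cY] at this
    exact_mod_cast this
  have t1 : max (((N y).card : ℝ) * (A.card - 1) - 2 * (n + k)) 0 ≤
      ∑ z ∈ Y.erase y, max ((c z : ℝ) - 2) 0 := by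
    refine max_le ?_ (sum_nonneg fun _ _ => le_max_right _ _)
    refine le_trans ?_ (sum_le_sum fun z _ => le_max_left _ _)
    rw [sum_sub_distrib, sum_const, nsmul_eq_mul]
    have : ((∑ z ∈ Y.erase y, c z : ℕ) : ℝ) + (N y).card = (N y).card * A.card := by
      exact_mod_cast s2
    push_cast at this
    linarith
  have t2 := pow_sum_le_card_mul_sum_pow (s := Y.erase y) (f := fun z => max ((c z : ℝ) - 2) 0)
    (fun _ _ => le_max_right _ _) 2
  have t3 : ∑ z ∈ Y.erase y, (max ((c z : ℝ) - 2) 0) ^ 3 ≤ ((N y).card : ℝ) ^ 3 := by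
    refine (sum_le_sum fun z _ => ch3 (c z)).trans (le_trans ?_ (ch3' _))
    rw [← mul_sum]
    refine mul_le_mul_of_nonneg_left ?_ (by norm_num)
    exact_mod_cast s3
  refine (pow_le_pow_left₀ (le_max_right _ _) t1 3).trans (t2.trans ?_)
  exact mul_le_mul (pow_le_pow_left₀ (by positivity) cE 2) t3
    (sum_nonneg fun _ _ => by positivity) (by positivity)

theorem upper_real (δ s : ℝ) (hδ : 0 < δ) (hδ1 : δ ≤ 1) (n : ℕ) (hs : s ^ 3 = n) (hs0 : 17 / δ ^ 2 ≤ s)
    (A : Finset ℤ) (hA : A ⊆ Icc 1 (n : ℤ)) (hC : IsC33 A) :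
    (A.card : ℝ) ≤ (1 + 2 * δ) * s ^ 2 := by
  have h17 : 17 ≤ δ ^ 2 * s := by rwa [div_le_iff₀ (by positivity), mul_comm] at hs0
  have s0 : 0 < s := lt_of_lt_of_le (by positivity) hs0
  have d2 : δ ^ 2 ≤ δ := by nlinarith
  have s1 : 17 ≤ δ * s := h17.trans (mul_le_mul_of_nonneg_right d2 s0.le)
  have s2 : 17 ≤ s := s1.trans (by nlinarith)
  by_contra hh
  push Not at hh
  have ha : s ^ 2 ≤ A.card := le_trans (by nlinarith [sq_nonneg s]) hh.le
  set k := ⌊δ * s ^ 3⌋₊ with hk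
  have k1 : (k : ℝ) ≤ δ * s ^ 3 := Nat.floor_le (by positivity)
  have k2 : δ * s ^ 3 < k + 1 := Nat.lt_floor_add_one _
  have k3 : 2 ≤ δ * s ^ 3 := by
    have : δ * s ^ 3 = (δ * s) * s ^ 2 := by ring
    nlinarith
  have k4 : δ * s ^ 3 / 2 ≤ k := by linarith
  have k5 : 0 < k := by
    have : (0 : ℝ) < k := by linarith
    exact_mod_cast this
  obtain ⟨d, h1, h2⟩ := upper_core n k A hA hC k5
  have h1' : (k : ℝ) * A.card ≤ (n + k) * d := by exact_mod_cast h1
  rw [← hs] at h1' h2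
  have M1 : s ^ 3 + k ≤ (1 + δ) * s ^ 3 := by linarith
  have M2 : s ^ 3 + k ≤ 2 * s ^ 3 := by nlinarith [pow_pos s0 3]
  have h3 : max ((d : ℝ) * (A.card - 1) - 2 * (s ^ 3 + k)) 0 ≤ (1 + δ) * s ^ 2 * d := by
    refine le_of_pow_le_pow_left₀ (by norm_num : 3 ≠ 0) (by positivity) (h2.trans ?_)
    rw [mul_pow]
    refine mul_le_mul_of_nonneg_right ?_ (by positivity)
    refine (pow_le_pow_left₀ (by positivity) M1 2).trans ?_
    rw [mul_pow, mul_pow, ← pow_mul, ← pow_mul]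
    exact mul_le_mul_of_nonneg_right (pow_le_pow_right₀ (by linarith) (by norm_num))
      (by positivity)
  have h4 : (d : ℝ) * (A.card - 1) - 2 * (s ^ 3 + k) ≤ (1 + δ) * s ^ 2 * d :=
    (le_max_left _ _).trans h3
  have h5 : δ * s ^ 2 / 4 ≤ d := by
    have : δ * s ^ 3 / 2 * s ^ 2 ≤ 2 * s ^ 3 * d :=
      (mul_le_mul k4 ha (by positivity) (by positivity)).trans
        (h1'.trans (mul_le_mul_of_nonneg_right M2 (by positivity)))
    have e : δ * s ^ 3 / 2 * s ^ 2 = 2 * s ^ 3 * (δ * s ^ 2 / 4) := by ring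
    rw [e] at this
    exact le_of_mul_le_mul_left this (by positivity)
  have d0 : (0 : ℝ) < d := lt_of_lt_of_le (by positivity) h5
  have h6 : (d : ℝ) * (δ * s ^ 2 - 1) < 4 * s ^ 3 := by nlinarith
  have h7 : δ * s ^ 2 / 4 * (δ * s ^ 2 - 1) < 4 * s ^ 3 :=
    lt_of_le_of_lt (mul_le_mul_of_nonneg_right h5 (by nlinarith)) h6
  have h8 : 17 * s ^ 3 ≤ δ ^ 2 * s * s ^ 3 := mul_le_mul_of_nonneg_right h17 (by positivity)
  have h9 : δ * s ^ 2 ≤ s ^ 3 := by nlinarith [pow_pos s0 2]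
  nlinarith

end Pool.Agent.H.MP_5edfab_co
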