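import Pool.Agent.H.MP_5edfab_co.Defs

set_option autoImplicit false

namespace Pool.Agent.H.MP_5edfab_co

open Finset

section

variable {p : ℕ} [Fact p.Prime] {K : Type} [Field K] [Algebra (ZMod p) K]

theorem fix_alg (c : ZMod p) : (algebraMap (ZMod p) K c) ^ p = algebraMap (ZMod p) K c := by
  rw [← map_pow, ZMod.pow_card]

theorem mem_of_fix {x : K} (h : x ^ p = x) : ∃ c : ZMod p, algebraMap (ZMod p) K c = x := by
  haveI : CharP K p := (Algebra.charP_iff (ZMod p) K p).1 inferInstance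
  have h1 : x ∈ (⊥ : Subfield K) := (Subfield.mem_bot_iff_pow_eq_self K p).2 h
  have h2 : (⊥ : Subfield K) ≤ (algebraMap (ZMod p) K).fieldRange := bot_le
  exact h2 h1

theorem key (r s : K) (c1 c2 c3 : ZMod p) (h1 : c1 ≠ 0) (h2 : c2 ≠ 0)
    (hr : (r ^ (p ^ 2 + 1)) ^ p = r ^ (p ^ 2 + 1)) (hs : (s ^ (p ^ 2 + 1)) ^ p = s ^ (p ^ 2 + 1))
    (h : algebraMap (ZMod p) K c1 + algebraMap (ZMod p) K c2 * r +
      algebraMap (ZMod p) K c3 * s = 0) : r ^ p = r := by
  haveI : CharP K p := (Algebra.charP_iff (ZMod p) K p).1 inferInstance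
  set φ := frobenius K p with hφ
  have e : ∀ x : K, x ^ (p ^ 2 + 1) = φ (φ x) * x := fun x => by
    rw [pow_succ, hφ, frobenius_def, frobenius_def, ← pow_mul, sq]
  have f : ∀ c : ZMod p, φ (algebraMap (ZMod p) K c) = algebraMap (ZMod p) K c := fun c => fix_alg c
  rw [e, ← frobenius_def, ← hφ, map_mul] at hr hs
  rw [← frobenius_def, ← hφ]
  have g1 := congrArg φ h
  simp only [map_add, map_mul, f, map_zero] at g1
  have g2 := congrArg φ g1
  simp only [map_add, map_mul, f, map_zero] at g2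
  have g3 := congrArg φ g2
  simp only [map_add, map_mul, f, map_zero] at g3
  have a1 : algebraMap (ZMod p) K c1 ≠ 0 := by simpa using h1
  have a2 : algebraMap (ZMod p) K c2 ≠ 0 := by simpa using h2
  generalize algebraMap (ZMod p) K c1 = C1 at *
  generalize algebraMap (ZMod p) K c2 = C2 at *
  generalize algebraMap (ZMod p) K c3 = C3 at *
  have t : C1 * C2 * (φ r + φ (φ (φ r)) - r - φ (φ r)) = 0 := by
    linear_combination (C3 ^ 2) * hs - (C2 ^ 2) * hr +
      (C1 + C2 * φ (φ (φ r))) * g1 - (C3 * φ s) * g3 - (C1 + C2 * φ (φ r)) * h + (C3 * s) * g2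
  have t' : φ r + φ (φ (φ r)) - r - φ (φ r) = 0 :=
    (mul_eq_zero.1 t).resolve_left (mul_ne_zero a1 a2)
  have u : (φ r - r) * (φ r - φ (φ r)) = 0 := by
    linear_combination (φ r) * t' - hr
  rcases mul_eq_zero.1 u with u | u
  · exact sub_eq_zero.1 u
  · exact (φ.injective (sub_eq_zero.1 u)).symm

theorem coll (N : ℕ) (hN : ∀ x : K, x ^ N = 1 → (x ^ (p ^ 2 + 1)) ^ p = x ^ (p ^ 2 + 1))
    (hN0 : N ≠ 0) (M : K →ₗ[ZMod p] ZMod p) (u1 u2 u3 : K) (g1 : u1 ^ N = 1) (g2 : u2 ^ N = 1)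
    (g3 : u3 ^ N = 1) (m1 : M u1 = 1) (m2 : M u2 = 1) (m3 : M u3 = 1) (n12 : u1 ≠ u2)
    (n13 : u1 ≠ u3) (n23 : u2 ≠ u3) (c1 c2 c3 : ZMod p) (h : c1 • u1 + c2 • u2 + c3 • u3 = 0) :
    c1 = 0 ∧ c2 = 0 ∧ c3 = 0 := by
  have hs := congrArg M h
  simp only [map_add, map_smul, m1, m2, m3, smul_eq_mul, mul_one, map_zero] at hs
  by_cases h1 : c1 = 0
  · have e : c3 = -c2 := by linear_combination hs - h1
    subst h1 e
    have : c2 • (u2 - u3) = 0 := by rw [← h]; module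
    have := (smul_eq_zero.1 this).resolve_right (sub_ne_zero.2 n23)
    simp [this]
  by_cases h2 : c2 = 0
  · have e : c3 = -c1 := by linear_combination hs - h2
    subst h2 e
    have : c1 • (u1 - u3) = 0 := by rw [← h]; module
    exact (h1 ((smul_eq_zero.1 this).resolve_right (sub_ne_zero.2 n13))).elim
  exfalso
  have u0 : u1 ≠ 0 := fun e => by
    rw [e, zero_pow hN0] at g1
    exact zero_ne_one g1
  have k := key (u2 / u1) (u3 / u1) c1 c2 c3 h1 h2 (hN _ (by rw [div_pow, g1, g2, div_one]))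
    (hN _ (by rw [div_pow, g1, g3, div_one])) (by
      simp only [Algebra.smul_def] at h
      field_simp
      linear_combination h)
  obtain ⟨c, hc⟩ := mem_of_fix k
  have e : u2 = c • u1 := by
    rw [Algebra.smul_def, hc]
    field_simp
  rw [e, map_smul, m1, smul_eq_mul, mul_one] at m2
  rw [m2, one_smul] at e
  exact n12 e.symm

theorem noK33 (hK : Module.finrank (ZMod p) K = 4) (N : ℕ)
    (hN : ∀ x : K, x ^ N = 1 → (x ^ (p ^ 2 + 1)) ^ p = x ^ (p ^ 2 + 1))
    (hN0 : N ≠ 0) (L : K →ₗ[ZMod p] ZMod p) (u1 u2 u3 v1 v2 v3 : K)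
    (g1 : u1 ^ N = 1) (g2 : u2 ^ N = 1) (g3 : u3 ^ N = 1)
    (k1 : v1 ^ N = 1) (k2 : v2 ^ N = 1) (k3 : v3 ^ N = 1)
    (n12 : u1 ≠ u2) (n13 : u1 ≠ u3) (n23 : u2 ≠ u3)
    (o12 : v1 ≠ v2) (o13 : v1 ≠ v3) (o23 : v2 ≠ v3)
    (h : ∀ u ∈ ({u1, u2, u3} : Set K), ∀ v ∈ ({v1, v2, v3} : Set K), L (u * v) = 1) : False := by
  haveI : Module.Finite (ZMod p) K := Module.finite_of_finrank_eq_succ hK
  have h11 := h u1 (by simp) v1 (by simp)
  have h12 := h u1 (by simp) v2 (by simp)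
  have h13 := h u1 (by simp) v3 (by simp)
  have h21 := h u2 (by simp) v1 (by simp)
  have h22 := h u2 (by simp) v2 (by simp)
  have h23 := h u2 (by simp) v3 (by simp)
  have h31 := h u3 (by simp) v1 (by simp)
  have h32 := h u3 (by simp) v2 (by simp)
  have h33 := h u3 (by simp) v3 (by simp)
  have ha : v2 - v1 ≠ 0 := sub_ne_zero.2 o12.symm
  set z0 := (v2 - v1)⁻¹ * (u1 * v1) with hz0
  have a0 : L (z0 * (v2 - v1)) = 1 := by
    rw [← h11, hz0]; congr 1; field_simp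
  set t := L (z0 * (v3 - v1)) with ht
  by_cases hw : (v3 - v1) - t • (v2 - v1) = 0
  · have := coll N hN hN0 (L ∘ₗ LinearMap.mulLeft (ZMod p) u1) v1 v2 v3 k1 k2 k3 h11 h12 h13
      o12 o13 o23 (t - 1) (-t) 1 (by rw [← hw]; module)
    exact one_ne_zero this.2.2
  set w := (v3 - v1) - t • (v2 - v1) with hw'
  set z1 := w⁻¹ * (u1 * v1) with hz1
  have b1 : L (z1 * w) = 1 := by
    rw [← h11, hz1]; congr 1; field_simp
  have b0 : L (z0 * w) = 0 := by
    rw [hw', mul_sub z0 (v3 - v1), mul_smul_comm, map_sub, map_smul, a0, ← ht]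
    simp
  have c1 : ∀ u, L (u * v1) = 1 → L (u * v2) = 1 → L (u * (v2 - v1)) = 0 := fun u e1 e2 => by
    rw [mul_sub, map_sub, e1, e2, sub_self]
  have c2 : ∀ u, L (u * v1) = 1 → L (u * v2) = 1 → L (u * v3) = 1 → L (u * w) = 0 :=
    fun u e1 e2 e3 => by
      rw [hw', mul_sub u (v3 - v1), mul_smul_comm, map_sub, map_smul, c1 u e1 e2, mul_sub, map_sub,
        e1, e3]
      simp
  have nli : ¬ LinearIndependent (ZMod p) ![u1, u2, u3, z0, z1] := fun hl => by
    have := hl.fintype_card_le_finrank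
    simp [hK] at this
  obtain ⟨g, hg, i, hi⟩ := Fintype.not_linearIndependent_iff.1 nli
  simp only [Fin.sum_univ_five, Matrix.cons_val] at hg
  have e4 : g 4 = 0 := by
    have := congrArg (fun z => L (z * w)) hg
    simpa [add_mul, c2 _ h11 h12 h13, c2 _ h21 h22 h23, c2 _ h31 h32 h33, b0, b1] using this
  have e3 : g 3 = 0 := by
    have := congrArg (fun z => L (z * (v2 - v1))) hg
    simpa [add_mul, c1 _ h11 h12, c1 _ h21 h22, c1 _ h31 h32, a0, e4] using this
  rw [e3, e4, zero_smul, zero_smul, add_zero, add_zero] at hg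
  obtain ⟨e0, e1, e2⟩ := coll N hN hN0 (L ∘ₗ LinearMap.mulRight (ZMod p) v1) u1 u2 u3 g1 g2 g3
    h11 h21 h31 n12 n13 n23 _ _ _ hg
  fin_cases i <;> simp_all

end

theorem constr (p : ℕ) (hp : p.Prime) : ∃ A : Finset ℤ,
    A ⊆ Icc 1 (((p ^ 2 + 1) * (p - 1) : ℕ) : ℤ) ∧ IsC33 A ∧ (p ^ 2 + 1) * (p - 1) ≤ p * A.card := by
  classical
  haveI : Fact p.Prime := ⟨hp⟩
  set K := GaloisField p 4
  haveI : Fintype K := Fintype.ofFinite K
  have hK : Module.finrank (ZMod p) K = 4 := GaloisField.finrank p (by norm_num)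
  have cK : Nat.card K = p ^ 4 := GaloisField.card p 4 (by norm_num)
  set N := (p ^ 2 + 1) * (p - 1) with hN
  obtain ⟨q, rfl⟩ : ∃ q, p = q + 1 := ⟨p - 1, by have := hp.pos; omega⟩
  have q0 : q ≠ 0 := by have := hp.one_lt; omega
  have hN0 : N ≠ 0 := by rw [hN]; simpa using q0
  obtain ⟨g, hg⟩ := IsCyclic.exists_ofOrder_eq_natCard (α := Kˣ)
  rw [Nat.card_units, cK] at hg
  have eN : (q + 1) ^ 4 - 1 = (q + 2) * N := by
    rw [hN, Nat.add_sub_cancel]
    have : (q + 1) ^ 4 = (q + 2) * (((q + 1) ^ 2 + 1) * q) + 1 := by ring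
    omega
  set h := g ^ (q + 2) with hh
  have oh : orderOf h = N := by
    rw [hh, orderOf_pow_of_dvd (by omega) (by rw [hg, eN]; exact dvd_mul_right _ _), hg, eN,
      Nat.mul_div_cancel_left _ (by omega)]
  have hpow : ∀ i : ℤ, ((h ^ i : Kˣ) : K) ^ N = 1 := fun i => by
    rw [← Units.val_pow_eq_pow_val, ← zpow_natCast, ← zpow_mul, mul_comm, zpow_mul, zpow_natCast,
      ← oh, pow_orderOf_eq_one, one_zpow, Units.val_one]
  have hfix : ∀ x : K, x ^ N = 1 → (x ^ ((q + 1) ^ 2 + 1)) ^ (q + 1) = x ^ ((q + 1) ^ 2 + 1) :=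
    fun x hx => by
      rw [pow_succ, ← pow_mul, show ((q + 1) ^ 2 + 1) * q = N from rfl, hx, one_mul]
  let B := Module.finBasisOfFinrankEq (ZMod (q + 1)) K hK
  have cH : (q + 1) ^ 3 ≤ (univ.filter (fun z : K => B.coord 0 z = 1)).card := by
    have : Fintype.card (Fin 3 → ZMod (q + 1)) = (q + 1) ^ 3 := by simp [ZMod.card]
    rw [← this, ← card_univ]
    refine card_le_card_of_injOn (fun c => B.equivFun.symm (Fin.cons 1 c)) (fun c _ => ?_)
      (fun c _ c' _ e => ?_)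
    · simp only [coe_filter, mem_univ, true_and, Set.mem_setOf_eq, Module.Basis.coord_apply]
      rw [← Module.Basis.equivFun_apply, LinearEquiv.apply_symm_apply]
      rfl
    · exact Fin.cons_right_injective _ (B.equivFun.symm.injective e)
  set A : K → Finset ℤ := fun b => (Icc (1 : ℤ) N).filter
    (fun i => B.coord 0 (b * (h ^ i : Kˣ)) = 1) with hA
  have sA : N * (q + 1) ^ 3 ≤ ∑ b : K, (A b).card := by
    have := sum_card_bipartiteAbove_eq_sum_card_bipartiteBelow (s := (univ : Finset K))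
      (t := Icc (1 : ℤ) N) (fun b i => B.coord 0 (b * (h ^ i : Kˣ)) = 1)
    simp only [bipartiteAbove, bipartiteBelow] at this
    rw [this]
    refine le_trans (by simp) (card_nsmul_le_sum _ _ ((q + 1) ^ 3) fun i _ => cH.trans ?_)
    refine card_le_card_of_injOn (fun z => z * ((h ^ i)⁻¹ : Kˣ)) (fun z hz => ?_)
      (fun z _ z' _ e => (Units.mul_left_inj _).1 e)
    simp only [coe_filter, mem_univ, true_and, Set.mem_setOf_eq] at hz ⊢
    rw [Units.inv_mul_cancel_right]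
    exact hz
  obtain ⟨b, -, hb⟩ := exists_max_image univ (fun b => (A b).card) univ_nonempty
  refine ⟨A b, filter_subset _ _, fun X Y hX hY => ?_, ?_⟩
  · by_contra hc
    push Not at hc
    obtain ⟨x1, x2, x3, n12, n13, n23, rfl⟩ := card_eq_three.1 hX
    obtain ⟨y1, y2, y3, o12, o13, o23, rfl⟩ := card_eq_three.1 hY
    have inj : ∀ x x' y : ℤ, x + y ∈ A b → x' + y ∈ A b → x ≠ x' →
        ((h ^ x : Kˣ) : K) ≠ (h ^ x' : Kˣ) := fun x x' y a1 a2 hne e => by
      have e' := zpow_eq_zpow_iff_modEq.1 (Units.ext e)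
      rw [oh] at e'
      have b1 := mem_Icc.1 (mem_filter.1 a1).1
      have b2 := mem_Icc.1 (mem_filter.1 a2).1
      have := Int.eq_zero_of_abs_lt_dvd e'.dvd (abs_lt.2 ⟨by omega, by omega⟩)
      omega
    have hc' : ∀ y ∈ ({y1, y2, y3} : Finset ℤ), y + x1 ∈ A b := fun y hy => by
      rw [add_comm]; exact hc y hy x1 (by simp)
    refine noK33 hK N hfix hN0 (B.coord 0 ∘ₗ LinearMap.mulLeft _ b) _ _ _ _ _ _
      (hpow x1) (hpow x2) (hpow x3) (hpow y1) (hpow y2) (hpow y3)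
      (inj _ _ y1 (hc _ (by simp) _ (by simp)) (hc _ (by simp) _ (by simp)) n12)
      (inj _ _ y1 (hc _ (by simp) _ (by simp)) (hc _ (by simp) _ (by simp)) n13)
      (inj _ _ y1 (hc _ (by simp) _ (by simp)) (hc _ (by simp) _ (by simp)) n23)
      (inj _ _ x1 (hc' _ (by simp)) (hc' _ (by simp)) o12)
      (inj _ _ x1 (hc' _ (by simp)) (hc' _ (by simp)) o13)
      (inj _ _ x1 (hc' _ (by simp)) (hc' _ (by simp)) o23) ?_
    have fin : ∀ x ∈ ({x1, x2, x3} : Finset ℤ), ∀ y ∈ ({y1, y2, y3} : Finset ℤ),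
        (B.coord 0 ∘ₗ LinearMap.mulLeft _ b) (((h ^ x : Kˣ) : K) * (h ^ y : Kˣ)) = 1 :=
      fun x hx y hy => by
        have := (mem_filter.1 (hc y hy x hx)).2
        rw [zpow_add, Units.val_mul] at this
        exact this
    rintro u (rfl | rfl | rfl) v (rfl | rfl | rfl) <;> exact fin _ (by simp) _ (by simp)
  · have := sA.trans (sum_le_card_nsmul _ _ _ hb)
    rw [card_univ, ← Nat.card_eq_fintype_card, cK, smul_eq_mul] at this
    refine Nat.le_of_mul_le_mul_right (c := (q + 1) ^ 3) (this.trans (le_of_eq (by ring)))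
      (by positivity)

end Pool.Agent.H.MP_5edfab_co
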