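import Pool.Agent.H.MP_5edfab_co.A
import Pool.Agent.H.MP_5edfab_co.B
import Pool.Agent.Lib.helper27.WPNT

set_option autoImplicit false

namespace Pool.Agent.H.MP_5edfab_co

open Finset Filter Topology

theorem prime_near {ε : ℝ} (hε : 0 < ε) :
    ∃ N : ℕ, ∀ x : ℝ, N ≤ x → ∃ p : ℕ, p.Prime ∧ (1 - ε) * x - 1 ≤ p ∧ (p : ℝ) ≤ x := by
  obtain ⟨c, hc, N, h⟩ := Pool.Agent.Lib.helper27.WPNT.weak_pnt hε
  refine ⟨N + 1, fun x hx => ?_⟩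
  have x0 : 0 ≤ x := le_trans (by positivity) hx
  have h1 : N + 1 ≤ ⌊x⌋₊ := Nat.le_floor hx
  have h2 := h ⌊x⌋₊ (by omega)
  have h3 : (0 : ℝ) < c * ⌊x⌋₊ := mul_pos hc (by exact_mod_cast (show 0 < ⌊x⌋₊ by omega))
  obtain ⟨p, hp, -⟩ := exists_ne_zero_of_sum_ne_zero (h3.trans_le h2).ne'
  obtain ⟨a1, a2, a3⟩ := mem_filter.mp hp
  have a4 : (p : ℝ) ≤ ⌊x⌋₊ := by exact_mod_cast Nat.lt_succ_iff.mp (mem_range.mp a1)
  have a5 := Nat.floor_le x0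
  have a6 := Nat.lt_floor_add_one x
  refine ⟨p, a2, ?_, a4.trans a5⟩
  nlinarith

theorem bdd (n : ℕ) :
    BddAbove {m | ∃ A : Finset ℤ, A ⊆ Finset.Icc 1 (n : ℤ) ∧ IsC33 A ∧ A.card = m} :=
  ⟨(Finset.Icc 1 (n : ℤ)).card, fun _ ⟨_, h, _, e⟩ => e ▸ card_le_card h⟩

theorem F_spec (n : ℕ) : ∃ A : Finset ℤ, A ⊆ Finset.Icc 1 (n : ℤ) ∧ IsC33 A ∧ A.card = F n := by
  have : Set.Nonempty {m | ∃ A : Finset ℤ, A ⊆ Finset.Icc 1 (n : ℤ) ∧ IsC33 A ∧ A.card = m} := by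
    refine ⟨0, ∅, empty_subset _, fun X K hX hK => ?_, rfl⟩
    obtain ⟨x, hx⟩ := card_pos.1 (by omega : 0 < X.card)
    obtain ⟨k, hk⟩ := card_pos.1 (by omega : 0 < K.card)
    exact ⟨k, hk, x, hx, notMem_empty _⟩
  exact Nat.sSup_mem this (bdd n)

theorem lower_real (δ s : ℝ) (hδ : 0 < δ) (hδ1 : δ ≤ 1 / 4) (n p : ℕ) (hs : s ^ 3 = n)
    (hs0 : 2 / δ ≤ s) (hp : p.Prime) (h1 : (1 - δ) * s - 1 ≤ p) (h2 : (p : ℝ) ≤ s) :
    (1 - 4 * δ) * s ^ 2 ≤ F n := by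
  obtain ⟨A, a1, a2, a3⟩ := constr p hp
  obtain ⟨q, rfl⟩ : ∃ q, p = q + 1 := ⟨p - 1, by have := hp.pos; omega⟩
  rw [Nat.add_sub_cancel] at a1 a3
  have hn : (q + 1) ^ 3 ≤ n := by
    have : (((q + 1 : ℕ) : ℝ)) ^ 3 ≤ n := hs ▸ pow_le_pow_left₀ (by positivity) h2 3
    exact_mod_cast this
  have b1 : A.card ≤ F n := le_csSup (bdd n) ⟨A, a1.trans (Icc_subset_Icc_right (by
    have : ((q + 1) ^ 2 + 1) * q ≤ n := le_trans (by nlinarith) hn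
    exact_mod_cast this)), a2, rfl⟩
  have b2 : q ^ 2 ≤ F n := by
    refine le_trans ?_ b1
    refine Nat.le_of_mul_le_mul_left (le_trans ?_ a3) (Nat.succ_pos q)
    nlinarith
  have b3 : (q : ℝ) ^ 2 ≤ F n := by exact_mod_cast b2
  have s1 : 2 ≤ δ * s := by rwa [div_le_iff₀ hδ, mul_comm] at hs0
  have s0 : 0 < s := lt_of_lt_of_le (by positivity) hs0
  push_cast at h1
  have b4 : (1 - 2 * δ) * s ≤ q := by linarith
  have b5 := pow_le_pow_left₀ (mul_nonneg (by linarith) s0.le) b4 2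
  refine le_trans ?_ (b5.trans b3)
  rw [mul_pow]
  exact mul_le_mul_of_nonneg_right (by nlinarith) (by positivity)

theorem main : Tendsto (fun n : ℕ => (F n : ℝ) / (n : ℝ) ^ (2 / 3 : ℝ)) atTop (𝓝 1) := by
  have hs : Tendsto (fun n : ℕ => (n : ℝ) ^ (1 / 3 : ℝ)) atTop atTop :=
    (tendsto_rpow_atTop (by norm_num)).comp tendsto_natCast_atTop_atTop
  refine Metric.tendsto_nhds.2 fun ε hε => ?_
  obtain ⟨δ, d0, d1, d2⟩ : ∃ δ : ℝ, 0 < δ ∧ δ ≤ 1 / 4 ∧ 5 * δ ≤ ε :=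
    ⟨min (1 / 4) (ε / 5), by positivity, min_le_left _ _,
      by linarith [min_le_right (1 / 4) (ε / 5)]⟩
  obtain ⟨N, hN⟩ := prime_near d0
  filter_upwards [hs.eventually_ge_atTop (17 / δ ^ 2), hs.eventually_ge_atTop (2 / δ),
    hs.eventually_ge_atTop N] with n e1 e2 e3
  have c3 : ((n : ℝ) ^ (1 / 3 : ℝ)) ^ 3 = n := by
    rw [← Real.rpow_natCast, ← Real.rpow_mul (by positivity)]; norm_num
  have c2 : (n : ℝ) ^ (2 / 3 : ℝ) = ((n : ℝ) ^ (1 / 3 : ℝ)) ^ 2 := by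
    rw [← Real.rpow_natCast, ← Real.rpow_mul (by positivity)]; norm_num
  rw [c2]
  generalize (n : ℝ) ^ (1 / 3 : ℝ) = s at *
  have s0 : 0 < s := lt_of_lt_of_le (by positivity) e2
  obtain ⟨p, hp, p1, p2⟩ := hN s e3
  have l := lower_real δ s d0 d1 n p c3 e2 hp p1 p2
  obtain ⟨A, a1, a2, a3⟩ := F_spec n
  have u := upper_real δ s d0 (by linarith) n c3 e1 A a1 a2
  rw [a3] at u
  rw [← le_div_iff₀ (by positivity)] at l
  rw [← div_le_iff₀ (by positivity)] at u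
  rw [Real.dist_eq, abs_lt]
  constructor <;> linarith

end Pool.Agent.H.MP_5edfab_co
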