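import Mathlib

set_option autoImplicit false

namespace Pool.Agent.H.MP_5edfab_co

/-- no three-element set has three distinct translates inside `A` -/
def IsC33 (A : Finset ℤ) : Prop :=
  ∀ X K : Finset ℤ, X.card = 3 → K.card = 3 → ∃ k ∈ K, ∃ x ∈ X, x + k ∉ A

/-- largest size of a `C₃[3]`-set in `{1, …, n}` -/
noncomputable def F (n : ℕ) : ℕ :=
  sSup {m | ∃ A : Finset ℤ, A ⊆ Finset.Icc 1 (n : ℤ) ∧ IsC33 A ∧ A.card = m}

end Pool.Agent.H.MP_5edfab_co
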